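import Pool.Agent.V7H25.HC.Start
import Pool.Agent.V7H25.TF.Rel

set_option autoImplicit false

/-!
# Varieties with linked toric fibrations or branched along hyperplanes: special, potentially dense

Let `k₀` be a number field with algebraic closure `Ω`, let `F` be a polynomial over `k₀` irreducible
over `Ω` and let `K` be the function field over `Ω` of the hypersurface `F = 0` (every geometrically
integral variety over `k₀` is birational to such a hypersurface). Suppose that the variety has
finitely many fibrations, given by the function fields `L i` of their bases, such that no
nonconstant function is algebraic over every `L i`, and that the generic fibre over `L i` is of one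
of the following three kinds. Then the variety is special in the sense of Campana, and the variety
and everything that it dominates is potentially dense. The case of one fibration over a point
(`L = Ω`) is the case of the varieties of the second and the third kind themselves. There is no
condition on singularities, and the field `L i` need not be closed.

(1) Torsors under elliptic curves.

(2) Double covers of projective spaces `w² = ℓ_1 ⋯ ℓ_r · G`, where the `ℓ_i` are linear forms and `G`
is an arbitrary form of degree `2 n + 2 - r` (Calabi-Yau varieties if the singularities are mild),
with `r ≥ 2 n - 1`, or `r ≥ 2 n - 2` and `n ≥ 3`, such that for `2 ≤ c ≤ n` every linear subspace of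
codimension `c` is contained in at most `max (c, r + 2 c - 2 n - 1)` of the hyperplanes. This holds
for hyperplanes in general position, and if there are only hyperplanes (`r = 2 n + 2`) it holds for
all log canonical arrangements, for instance for the octic arrangements of planes in `ℙ³`.

(3) Hypersurfaces `f = 0` in a torus `(𝔾_m)^N`, where the Newton polytope of `f` has dimension `N`
(for instance the equation of a Calabi-Yau hypersurface in a toric variety). A direct summand of rank
two of `ℤ^N`, with basis `a`, `b`, is a subtorus of dimension two; its cosets cut the hypersurface in
curves whose Newton polygon is the image of the Newton polytope of `f` under `(a, b)`. We suppose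
that this polygon is small (`Thin f a b`): after a translation it is contained in `[0, 2]²`, in the
triangle `2 x + y ≤ 4`, in the triangle `x + y ≤ 3` or in the strip `0 ≤ x ≤ 1`. (By the
classification of lattice polygons, for a suitable basis this is the case for all polygons with at
most one interior lattice point. Double covers `w² = P` of tori are another example: here one needs
the width of `P` to be at most four in `N` independent directions.) Finitely many such planes should
be given and they should be linked (`Linked`): starting with the planes one obtains a lattice of rank
`N` by forming sums `A + B`, where either `A ∩ B ≠ 0`, or a mixed derivative of `f`, for two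
directions in `A` and two in `B`, does not vanish on the hypersurface. In the case of Calabi-Yau
hypersurfaces of a toric variety, given by a reflexive polytope, the planes are the plane sections of
the polar polytope which are reflexive polygons, that is, the toric fibrations in curves of genus
one; the theorem applies to all irreducible members with the full Newton polytope.

The proof for (2). Two hyperplanes `ℓ_i`, `ℓ_j` span a pencil; on its generic member, a projective
space of dimension `n - 1` over the field `L(ℓ_i / ℓ_j)`, the double cover is of the same kind with
two hyperplanes less, and the condition on the linear subspaces is inherited. Two pencils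
`ℓ_i / ℓ_j` and `ℓ_i / ℓ_k` have no common invariant function. For `n = 3`, `r = 4` one uses the three
pairings of four planes.

The proof for (3). For a plane, let `E` be the algebraic closure in `K` of the field generated over
`L` by the monomials orthogonal to the plane. The fibre over `E` is a double cover of a line or a
plane cubic. If the cubic is singular then it has only one singular point, since `E` is algebraically
closed in `K`, this point is rational over `E`, and the fibre is a line. The monomials orthogonal to
a fixed vector are algebraically independent on the hypersurface, because `f` is not homogeneous for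
any weight; so the functions which are invariant for two lattices with a common vector are invariant
for the sum. In the case of a nonvanishing mixed derivative the commutator of the two tangent vector
fields provides the missing direction.

In this way one arrives at finitely many fibrations in double covers of the line, torsors and plane
cubics, without common invariant functions. Then the tangent vector fields of the fibrations
generate all vector fields, and the points can be moved along all fibres. For the specialness one
needs, on each fibre, a vector field which is regular and generates the tangent directions at all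
places; for smooth plane cubics this is the Hamiltonian vector field.
-/

namespace Pool.Agent.Results.MP_9410e4_ag.LinkedFibrationsH25

open MvPolynomial AlgebraicGeometry CategoryTheory
open Pool.Agent.W572 Pool.Agent.W572.G Pool.Agent.Y742.GG Pool.Agent.W602.GT
open Pool.Agent.V7H25.TF

/-- `K` is, over the intermediate field `L`, the function field of the double cover
`w² = ℓ_1 ⋯ ℓ_r · g` of the affine space of dimension `n ≥ 1` over `L`, with coordinates
`x_1, …, x_n`. Here the `ℓ_i = A_{i0} + A_{i1} x_1 + ⋯ + A_{in} x_n` are affine linear forms and
`g` is a polynomial of degree at most `2 n + 2 - r`, both with coefficients in `L`, where `n = 1` or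
`r ≥ 2 n - 1` or `n ≥ 3`, `r ≥ 2 n - 2`. Moreover, for `2 ≤ c ≤ n`, every subspace of dimension `c` of
the space of linear forms (every linear subspace of codimension `c` of the projective space) contains
at most `max (c, r + 2 c - 2 n - 1)` of the forms (is contained in at most as many hyperplanes). -/
def IsHyperplaneCover {Ω K : Type*} [Field Ω] [Field K] [Algebra Ω K]
    (L : IntermediateField Ω K) : Prop :=
  ∃ (n r : ℕ) (x : Fin n → K) (w : K) (A : Fin r → Fin (n + 1) → L) (g : MvPolynomial (Fin n) L),
    1 ≤ n ∧ (n = 1 ∨ 2 * n ≤ r + 1 ∨ 3 ≤ n ∧ 2 * n ≤ r + 2) ∧
    AlgebraicIndependent L x ∧ IntermediateField.adjoin L (Set.range x ∪ {w}) = ⊤ ∧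
    w ^ 2 = (∏ i, (algebraMap L K (A i 0) + ∑ k, algebraMap L K (A i k.succ) * x k)) *
      aeval x g ∧
    g.totalDegree + r ≤ 2 * n + 2 ∧
    ∀ V : Submodule L (Fin (n + 1) → L), 2 ≤ Module.finrank L V → Module.finrank L V ≤ n →
      Nat.card {i // A i ∈ V} ≤
        max (Module.finrank L V) (r + 2 * Module.finrank L V - (2 * n + 1))

/-- `K` is, over the intermediate field `L`, the function field of the hypersurface `f = 0`, with
generic point `x`, where the Newton polytope of the irreducible polynomial `f` in `N` variables over
`L` has dimension `N` (`Full f`). There are finitely many pairs `a i`, `b i` of vectors in `ℤ^N`, each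
of them the basis of a direct summand of rank two, such that the Newton polygons of the fibres are
small (`Thin f (a i) (b i)`), and a lattice `Λ` of rank `N` is linked by these planes
(`Linked f a b Λ`). -/
def IsToricHypersurface {Ω K : Type} [Field Ω] [Field K] [Algebra Ω K]
    (L : IntermediateField Ω K) : Prop :=
  ∃ (N m : ℕ) (x : Fin N → K) (f : MvPolynomial (Fin N) L) (a b : Fin m → Fin N → ℤ)
    (Λ : Submodule ℤ (Fin N → ℤ)),
    (∀ P : MvPolynomial (Fin N) L, aeval x P = 0 ↔ f ∣ P) ∧
    IntermediateField.adjoin L (Set.range x) = ⊤ ∧ Full f ∧
    (∀ i, (∃ p q, Dual (a i) (b i) p q) ∧ Thin f (a i) (b i)) ∧ Linked f a b Λ ∧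
    ∀ μ : Fin N → ℤ, (∀ v ∈ Λ, dot v μ = 0) → μ = 0

/-- Let `F` be a polynomial over `k₀` (a number field), irreducible over the algebraic closure, and
let `K` be the function field of `F = 0` over the algebraic closure. Let `L i` be finitely many
intermediate fields such that `K` is over `L i` the function field of a torsor under an elliptic
curve, or of a double cover of a projective space branched along hyperplanes and a hypersurface of
complementary degree (`IsHyperplaneCover`), or of a hypersurface in a torus with linked fibrations in
curves of genus at most one (`IsToricHypersurface`). Suppose that the elements of `K` which are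
algebraic over every `L i` are constant. Then `K` is the function field of special varieties, and
every scheme over `k₀` to which the hypersurface `F = 0` admits a dominant rational map over `k₀` is
potentially dense. -/
theorem result (k₀ : Type) [Field k₀] [NumberField k₀] {N m : ℕ}
    (F : MvPolynomial (Fin N) k₀)
    (hF : Irreducible (map (algebraMap k₀ (AlgebraicClosure k₀)) F))
    {K : Type} [Field K] [Algebra (AlgebraicClosure k₀) K] {x : Fin N → K}
    (hx : IsGenericPoint (map (algebraMap k₀ (AlgebraicClosure k₀)) F) x)
    (L : Fin m → IntermediateField (AlgebraicClosure k₀) K)
    (hL : ∀ i, IsEllipticTorsor (L i) ∨ IsHyperplaneCover (L i) ∨ IsToricHypersurface (L i))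
    (hinv : ∀ a : K, (∀ i, IsAlgebraic (L i) a) →
      a ∈ Set.range (algebraMap (AlgebraicClosure k₀) K)) :
    (∃ w : ℕ, Algebra.trdeg (AlgebraicClosure k₀) K = w ∧
      Special (AlgebraicClosure k₀) K w (fun _ => False)) ∧
    ∀ (X : Scheme.{0}) (sX : X ⟶ Spec (.of k₀)) (f : (hypersurface F).PartialMap X),
      IsDominant f.hom → f.hom ≫ sX = f.domain.ι ≫ hypersurfaceStr F → PotentiallyDense sX := by
  classical
  have hchar : CharZero (AlgebraicClosure k₀) :=
    charZero_of_injective_algebraMap (algebraMap k₀ (AlgebraicClosure k₀)).injective
  -- finitely many fibrations in curves below every `L i`
  have key : ∀ i, ∃ s : Set (IntermediateField (AlgebraicClosure k₀) K), s.Finite ∧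
      (∀ E ∈ s, Crv E) ∧ ∀ a : K, (∀ E ∈ s, IsAlgebraic E a) → IsAlgebraic (L i) a := by
    intro i
    rcases hL i with h | ⟨n, r, y, w, A, g, hn, hr, hy, hgen, hw, hg, hpos⟩ |
      ⟨M, n, y, f, a, b, Λ, hy, hgen, hfull, hd, hΛ, hrank⟩
    · exact ⟨{L i}, Set.finite_singleton _, by rintro E rfl; exact Or.inr (Or.inl h),
        fun a ha => ha _ rfl⟩
    · have hC : Pool.Agent.V7H25.HC.Conn (L i) K :=
        Pool.Agent.V7H25.HC.conn_of_coordinates hn hr hy hgen hw hg hpos
      obtain ⟨s, hs, h1, h2⟩ := hC.descend
      exact ⟨s, hs, fun E hE => Or.inl (h1 E hE), h2⟩
    · exact toric_curves ⟨hy, hgen⟩ hfull (fun j => (hd j).1) (fun j => (hd j).2) hΛ hrank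
  choose s hs h1 h2 using key
  have hfin : (⋃ i, s i).Finite := Set.finite_iUnion hs
  have := hfin.to_subtype
  refine master k₀ F hF hx (fun E : (⋃ i, s i : Set _) =>
    (E : IntermediateField (AlgebraicClosure k₀) K)) (fun E => ?_) (fun a ha => ?_)
  · obtain ⟨i, hi⟩ := Set.mem_iUnion.1 E.2
    exact h1 i _ hi
  · exact hinv a fun i => h2 i a fun E hE => ha ⟨E, Set.mem_iUnion.2 ⟨i, hE⟩⟩

end Pool.Agent.Results.MP_9410e4_ag.LinkedFibrationsH25
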