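import Pool.Agent.V7H80.GC.Fib
import Pool.Agent.V7H80.GC.Dens
import Pool.Agent.Y742.SP.Main

/-!
# Complete intersections of low degree in products of lines are special and potentially dense

Let `Ω` be the field of algebraic numbers, and let `f 1, …, f q` be polynomials in `N` variables
over `Ω` whose degrees in every variable have a sum of at most two (or, more generally, let a double
cover be given). Let `Z` be an irreducible component of the variety `f 1 = … = f q = 0` in affine
space (or in the product of `N` lines) which has codimension `q` and at whose generic point the
equations are transversal. No other condition is supposed: `Z` and its closure can have arbitrary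
singularities, the other components can have any dimension, and the polynomials `f l` can be
reducible. Then `Z` is special and potentially dense, and every variety dominated by `Z` is
potentially dense.

The variety `Z` is given by its function field `K` and by its generic point `x` in `K ^ N`.

The proof. Let `T` be the tangent space of `Z` at its generic point, a subspace of `K ^ N`. For a
circuit `v` of `T` (a nonzero vector in `T` with minimal support) the coordinates `x a` with
`v a = 0` define a rational fibration of `Z` in curves. On these curves one of the variables in the
support of `v` after the other can be eliminated between two equations (a resultant with a variable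
in which the two equations together have degree at most two), and the bound for the sum of the
degrees is preserved; at the end one obtains a plane curve of bidegree at most `(2, 2)` (or a double
cover of the line branched in at most four points), hence a curve of geometric genus at most one.
As the circuits span `T`, no nonconstant rational function is invariant for all the fibrations, and
the theorem of the start library on varieties connected by fibrations in curves of genus at most one
applies.
-/

set_option autoImplicit false

open MvPolynomial Pool.Agent.V7H80.GC

namespace Pool.Agent.Results.MP_9410e4_ag.LowDegreeIntersectionsH80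

/-- Let `Ω` be the algebraic closure of `ℚ` and let `K` be a field over `Ω`, of transcendence degree
`n`, generated over `Ω` by the elements `x 1, …, x N` and `w`. Let `f 1, …, f q` be polynomials over
`Ω` in `N = n + q` variables, with `f l (x) = 0` for all `l` and with linearly independent
differentials at `x` (so that `x` is the generic point of a component `Z` of the variety
`f = 0`, of codimension `q`, and the equations are transversal at the generic point of `Z`), and
let `w ^ 2 = P (x)` for a polynomial `P` (so that `K` is the function field of `Z`, for
`P = w = 1`, or of a double cover of `Z`). Suppose that for every variable the sum of the degrees of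
the polynomials `f l` in this variable, multiplied by two, plus the degree of `P` is at most four
(for `P = 1`: the sum of the degrees is at most two). Then

(1) `K` is the function field of special varieties (there is no Bogomolov sheaf);

(2) for all `z 1, …, z M` in `K`, that is, for every affine variety `Y` dominated by `Z` (by the
double cover), with generic point `z`, there is a number field `L'` such that the points of `Y` with
coordinates in `L'` are Zariski dense in `Y`: for every polynomial `H` which does not vanish on `Y`
there is a point `y` of `Y` with coordinates in `L'` and with `H (y) ≠ 0`. -/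
theorem result {K : Type} [Field K] [Algebra (AlgebraicClosure ℚ) K] {N n q : ℕ}
    (x : Fin N → K) (w : K) (f : Fin q → MvPolynomial (Fin N) (AlgebraicClosure ℚ))
    (P : MvPolynomial (Fin N) (AlgebraicClosure ℚ))
    (hgen : IntermediateField.adjoin (AlgebraicClosure ℚ) (insert w (Set.range x)) = ⊤)
    (hn : Algebra.trdeg (AlgebraicClosure ℚ) K = n) (hN : n + q = N)
    (hf : ∀ l, aeval x (f l) = 0)
    (hdf : LinearIndependent K (fun (l : Fin q) (a : Fin N) => aeval x (pderiv a (f l))))
    (hw : w ^ 2 = aeval x P)
    (hdeg : ∀ a, 2 * ∑ l, (f l).degreeOf a + P.degreeOf a ≤ 4) :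
    Pool.Agent.W602.GT.Special (AlgebraicClosure ℚ) K n (fun _ => False) ∧
    ∀ (M : ℕ) (z : Fin M → K),
      ∃ L' : IntermediateField ℚ (AlgebraicClosure ℚ), FiniteDimensional ℚ L' ∧
        ∀ H : MvPolynomial (Fin M) (AlgebraicClosure ℚ), aeval z H ≠ 0 →
          ∃ y : Fin M → AlgebraicClosure ℚ, (∀ j, y j ∈ L') ∧
            (∀ G : MvPolynomial (Fin M) (AlgebraicClosure ℚ), aeval z G = 0 → aeval y G = 0) ∧
            aeval y H ≠ 0 := by
  classical
  have halg : Algebra.IsAlgebraic
      (Algebra.adjoin (AlgebraicClosure ℚ) (Set.range x)) K := by
    rw [← IntermediateField.isAlgebraic_adjoin_iff_top]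
    set F := IntermediateField.adjoin (AlgebraicClosure ℚ) (Set.range x) with hF
    have hwF : IsAlgebraic F w := by
      have h1 : aeval x P ∈ F := by
        have h2 := aeval_mem_adjoin (L := AlgebraicClosure ℚ) x (Set.univ : Set (Fin N)) P
          (fun a ha => absurd (Set.mem_univ a) ha)
        rwa [Set.image_univ] at h2
      have h2 : IsAlgebraic F (w ^ 2) := by
        rw [hw]
        exact isAlgebraic_algebraMap (⟨_, h1⟩ : F)
      exact h2.of_pow (by norm_num)
    refine ⟨fun b => ?_⟩
    have hb : b ∈ IntermediateField.adjoin (AlgebraicClosure ℚ) (insert w (Set.range x)) := by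
      rw [hgen]
      trivial
    have hle : IntermediateField.adjoin (AlgebraicClosure ℚ) (insert w (Set.range x)) ≤
        (algebraicClosure F K).restrictScalars (AlgebraicClosure ℚ) := by
      rw [IntermediateField.adjoin_le_iff]
      rintro c (rfl | ⟨a, rfl⟩)
      · exact mem_algebraicClosure_iff.2 hwF
      · exact mem_algebraicClosure_iff.2 (isAlgebraic_algebraMap
          (⟨x a, IntermediateField.subset_adjoin _ _ ⟨a, rfl⟩⟩ : F))
    exact mem_algebraicClosure_iff.1 (hle hb)
  obtain ⟨s, hs, hs'⟩ :=
    exists_isTranscendenceBasis_subset (R := AlgebraicClosure ℚ) (Set.range x)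
  -- distinct indices
  obtain ⟨B, hB, hBc⟩ : ∃ B : Finset (Fin N),
      AlgebraicIndependent (AlgebraicClosure ℚ) (fun b : B => x b) ∧ B.card = n := by
    have hfin : s.Finite := (Set.finite_range x).subset hs
    have : Fintype s := hfin.fintype
    choose g hg using fun a : s => hs a.2
    have hginj : Function.Injective g := by
      intro a b hab
      apply Subtype.ext
      rw [← hg a, ← hg b, hab]
    refine ⟨Finset.univ.image g, ?_, ?_⟩
    · let e : {b // b ∈ Finset.univ.image g} → s := fun b =>
        (Finset.mem_image.1 b.2).choose
      have he : ∀ b, g (e b) = b := fun b => (Finset.mem_image.1 b.2).choose_spec.2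
      have h1 := hs'.1.comp e (fun b b' hbb => by
        apply Subtype.ext
        rw [← he b, ← he b', hbb])
      have h2 : (fun b : {b // b ∈ Finset.univ.image g} => x b) =
          (fun a : s => (a : K)) ∘ e := by
        funext b
        rw [Function.comp_apply, ← hg (e b), he b]
      rw [h2]
      exact h1
    · rw [Finset.card_image_of_injective _ hginj, Finset.card_univ]
      have h1 := hs'.cardinalMk_eq_trdeg
      rw [hn, Cardinal.mk_fintype] at h1
      exact_mod_cast h1
  have h : LowDegree x f P w :=
    ⟨hgen, hf, hdf, ⟨B, hB, by rw [hBc, Fintype.card_fin, Fintype.card_fin, hN]⟩, hw, hdeg⟩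
  let I : Type := {T : Finset (Fin N) // ∃ v : Fin N → K, IsCircuit (tang x f) v ∧
    ∀ a, a ∈ T ↔ v a = 0}
  have hI : Finite I := Subtype.finite
  let L : I → IntermediateField (AlgebraicClosure ℚ) K := fun T =>
    Lz (AlgebraicClosure ℚ) x {a | a ∈ T.1}
  have hL : ∀ i, Pool.Agent.Y742.GG.IsDoubleCoverOfLine (L i) := by
    rintro ⟨T, v, hv, hT⟩
    have h1 : {a | a ∈ T} = {a | v a = 0} := Set.ext hT
    change Pool.Agent.Y742.GG.IsDoubleCoverOfLine (Lz (AlgebraicClosure ℚ) x {a | a ∈ T})
    rw [h1]
    exact h.dcl hv
  have hinv : ∀ a : K, (∀ i, IsAlgebraic (L i) a) → IsAlgebraic (AlgebraicClosure ℚ) a := by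
    intro a ha
    refine h.invariants fun v hv => ?_
    have h1 := ha ⟨Finset.univ.filter fun a => v a = 0, v, hv, fun a => by simp⟩
    have h2 : {a | a ∈ Finset.univ.filter fun a => v a = 0} = {a | v a = 0} := by
      ext a
      simp
    change IsAlgebraic (Lz (AlgebraicClosure ℚ) x
      {a | a ∈ Finset.univ.filter fun a => v a = 0}) a at h1
    rwa [h2] at h1
  have hfg : ∃ S : Finset K, IntermediateField.adjoin (AlgebraicClosure ℚ) (S : Set K) = ⊤ :=
    ⟨insert w (Finset.univ.image x), by
      rw [Finset.coe_insert, Finset.coe_image, Finset.coe_univ, Set.image_univ]
      exact hgen⟩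
  refine ⟨Pool.Agent.Y742.SP.sSpecialAll (AlgebraicClosure ℚ) K I n hfg hn L
    (fun i => Or.inl (hL i)) hinv, fun M z => ?_⟩
  let e := Finite.equivFin I
  exact dens hfg (fun i => L (e.symm i)) (fun i => hL _) (fun a ha => hinv a fun i => by
    have h1 := ha (e i)
    rwa [Equiv.symm_apply_apply] at h1) z

end Pool.Agent.Results.MP_9410e4_ag.LowDegreeIntersectionsH80
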