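import Pool.Agent.V7H74.MgR

/-!
# Special images of complete intersections: the counting condition

`V` is one of the following varieties of dimension `n ≥ 1`, with a map `V ⇢ E`, in blocks.

(a) `V` is a component of the set of common zeros in a torus `(ℂ^*) ^ (n + q)` of a system `f` of
Laurent polynomials which is nondegenerate in the sense of Khovanskii, with arbitrary Newton
polytopes. Some monomials `t_j = x ^ (w_j)` are given, divided into blocks, where `β j` is the block
of `t_j`, and `E` is the image of `V` under these monomials, where `ℂ(V) = ℂ(t)(y)` for a monomial
`y = x ^ v`. The `M_l` are numbers such that for some `u` the `u + j v + ∑_i a_i w_i` are in the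
Fine interior of the Newton polytopes, for all `j < c(all)` and all `a_i ≥ 0` with sum at most `M_l`
over the block `l`, for each `l` (`HasBox`; the numbers `c` are defined below). For example, let `V`
be a nondegenerate hypersurface of multidegree `(d_1, ..., d_p, d_0)` in a product of projective
spaces of dimensions `n_1, ..., n_p` and `1`, where the `t_j` are the affine coordinates of the
first `p` factors and `y` is the coordinate of the last one. Then `E` is the product of the first
`p` factors, and `M_l = d_l - n_l - 1` is possible, if these numbers are not negative and
`c(all) < d_0`.

(b) `V` is a smooth complete intersection, of any codimension `q`, in the product of the projective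
lines with the coordinates `x_i`, `i = 1, ..., n + q`, with canonical divisor `O(m_i)`, where all
`m_i ≥ 0`; `E` is the image of `V` under the projection which forgets one coordinate `x_{i0}`, and
each block consists of one coordinate `x_i`, `i ≠ i0`, with `M_i = m_i`.

Let `V ⇢ X` be any dominant rational map of degree `r`. For a set `S` of functions `t_j` (or `x_i`,
`i ≠ i0`) let `c(S)` be the number of the points of the general fibre of `V ⇢ X` where the functions
in `S` have the same values as in a given point of the fibre; so `c(∅) = r`.

(1), (2) The blocks spread the fibres if for some order of the blocks, with ties, given by numbers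
`b_l`, for all `s` and all nonempty sets `A` of blocks with `b = s`,
`2 c(the blocks with b ≤ s which are not in A) ≤ c(the blocks with b ≤ s) (1 + ∑_{l ∈ A} M_l)`
(`Spread`, `SpreadC`). If they spread the fibres then the canonical map of (a resolution of) `X` is
generically finite onto its image, so that `X` is of general type and not special, or `V ⇢ X`
factors through `V ⇢ E`. This is repeated in towers `V = V 0 ⇢ V 1 ⇢ ... ⇢ V k`, where each `V j`,
`j < k`, is as in (a) (`SpreadTower`) or as in (b) (`SpreadLines`), `V (j + 1)` is its image `E`,
`V k` is unirational, and if `V ⇢ X` factors through `V j` and not through `V (j + 1)` then the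
blocks of `V j` spread the fibres of `V j ⇢ X`. The theorem: the canonical map of `X` is generically
finite or `X` is unirational; if `X` is special then it is unirational and potentially dense.

(3) In particular, let `V` be as in (a), let `E` be unirational, and for each block let all `t_j` in
the block be constant on the general fibres of `V ⇢ X`, or let the `t_j` in the block take different
values at any two points of the general fibre with different images in `E`. Let `B` be the set of
the blocks of the second kind, `M_l ≥ 1` for all `l`, and `2 r ≤ c(all) (1 + ∑_{l ∈ B} M_l)` if `B`
is not empty. Then the canonical map of `X` is generically finite, or `X` is unirational and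
`V ⇢ X` factors through `V ⇢ E`; if `X` is special then it is unirational and potentially dense.

(4) The same holds if `V` is a smooth hypersurface of multidegree `(m_i + 2)` in the product of
`n + 1` projective lines, `m_i ≥ 1` for `i ≠ i0`, each `x_i`, `i ≠ i0`, is constant on the general
fibres of `V ⇢ X` or takes different values at all the points of the general fibre (this holds for
all maps of prime degree), and `2 r ≤ 1 + ∑_{i ∈ B} m_i`, if the set `B` of the coordinates of the
second kind is not empty. For example, if `m_i = m ≥ 1` for all `i`, the degree `r` is prime, and no
coordinate is constant on the fibres, then `2 r ≤ 1 + n m` suffices.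

So special implies potentially dense for all these `X`; the converse for these `X` is the
Bombieri-Lang conjecture that varieties of general type are not potentially dense. The earlier
theorems in this repository for all dominated varieties need `2 r ≤ c(all) (M + 1)` for a single
block (`SpecialTowers`) or `2 r ≤ m_i + 1` for each `i ≠ i0` (`SpecialImages`): here only sums of
these numbers over the blocks have to be large.

Proof: the forms `A y ^ j x ^ u Res`, where `Res` is the residue form on `V` and `A` is a monomial in
the `t_j` of degree at most `M_l` in the block `l`, have traces on `X`. If these traces do not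
separate the general points of `X`, there are two general fibres with a relation. It is restricted to
the parts of the fibres with the same values in more and more blocks, by a theorem of Hall type for
products of polynomials; the order `b` gives an order of the elimination. At the end there is a
relation for the part with the same image in `E`, and this contradicts the choice of `j`. Some
steps follow the proofs in `Pool/Agent/R882`.

`K` and `L` are the function fields of `V` and `X`. `Special ℂ L n ∅`: there is no Bogomolov sheaf
on the smooth projective varieties with function field `L` (`Pool/Agent/W602/GT`). `CanGe L n n`: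
there are `n + 1` canonical forms, regular on all smooth projective varieties with function field
`L`, whose ratios have transcendence degree `n` (`Pool/Agent/N145/SX/Tri.lean`).
`IsUnirational ℂ L n`: `L` embeds in the field of rational functions in `n` variables.
`PotentiallyDense ℂ x`: for some finitely generated subfield of `ℂ` the points with coordinates in
this field are Zariski-dense on the projective variety with generic point `x`
(`Pool/Agent/TH466/QT/Den.lean`). If `X` is defined over a number field, then a unirational `X` is
unirational over a finite extension (a standard argument, not formalised here), so `X` is potentially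
dense in the usual sense. `Nondegenerate`, `IsTorusPoint`, `InFine`: `Pool/Agent/R882/HT.lean`;
`IsSmooth`, `IsGenericPoint`: `Pool/Agent/R882/HL.lean`.
-/

set_option autoImplicit false
set_option linter.overlappingInstances false

open FF Module Pool.Agent.W602.GT
open Pool.Agent.W619.TW (IsUnirational)
open Pool.Agent.N145.SX (CanGe)
open Pool.Agent.V7H74.MG

namespace Pool.Agent.Results.MP_9410e4_ag.SpecialSpreadImagesH74

/-- **Special images of complete intersections: the counting condition.** -/
theorem result {n : ℕ} (hn : 1 ≤ n) {K : Type} [Field K] [Algebra ℂ K]
    (hK : Algebra.trdeg ℂ K = (n : ℕ))
    (L : Type) [Field L] [Algebra ℂ L] [Algebra L K] [IsScalarTower ℂ L K]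
    [FiniteDimensional L K] :
    -- (1) towers of nondegenerate complete intersections in tori
    (SpreadTower n (fun E _ _ => IsUnirational ℂ E n) 2 K L → CanonicalOrUnirational L n) ∧
    -- (2) towers of smooth complete intersections in products of projective lines
    (SpreadLines n (fun E _ _ => IsUnirational ℂ E n) 2 K L → CanonicalOrUnirational L n) ∧
    -- (3) nondegenerate complete intersections with sharp fibres
    (∀ {q N p : ℕ} (f : Fin q → (Fin (n + q) → ℤ) →₀ ℂ) (x : Fin (n + q) → K)
      (v : Fin (n + q) → ℤ) (w : Fin N → Fin (n + q) → ℤ) (t : Fin N → K) (β : Fin N → Fin p)
      (M : Fin p → ℕ) (B : Finset (Fin p)), SharpToricImage L n 2 f x v w t β M B →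
      (CanGe L n n ∨ FactorsThrough L (IntermediateField.adjoin ℂ (Set.range t))) ∧
      (IsUnirational ℂ (IntermediateField.adjoin ℂ (Set.range t)) n →
        CanonicalOrUnirational L n)) ∧
    -- (4) hypersurfaces with sharp fibres
    (∀ (F : MvPolynomial (Fin (n + 1)) ℂ) (m : Fin (n + 1) → ℕ) (x : Fin (n + 1) → K)
      (i0 : Fin (n + 1)) (B : Finset (Fin (n + 1))), SharpLinesImage L n 2 F m x i0 B →
      (CanGe L n n ∨ FactorsThrough L (IntermediateField.adjoin ℂ (x '' {i0}ᶜ))) ∧
      CanonicalOrUnirational L n) := by
  have hL : Algebra.trdeg ℂ L = (n : ℕ) := Pool.Agent.Y184.NT.trdeg_below (K := K) hK
  refine ⟨fun h => ?_, fun h => ?_, ?_, ?_⟩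
  · have hd := (dichotomy (Pool.Agent.R882.HT.descends_unirational n) hK L).2 h
    exact ⟨special_of hn hL hd, hd⟩
  · have hd := (dichotomy_lines (Pool.Agent.R882.HT.descends_unirational n) hK L).2 h
    exact ⟨special_of hn hL hd, hd⟩
  · intro q N p f x v w t β M B hV
    have h1 := torus_sharp (L := L) hK hV.cover (fun _ => hV.room) hV.positive hV.blocks hV.degree
    by_cases hc : CanGe L n n
    · exact ⟨Or.inl hc, fun _ => ⟨special_of hn hL (Or.inl hc), Or.inl hc⟩⟩
    · have h2 := h1 (Or.inr ⟨rfl, hc⟩)
      refine ⟨Or.inr h2.1, fun hE => ?_⟩
      have hU := h2.2 _ (Pool.Agent.R882.HT.descends_unirational n) hE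
      exact ⟨special_of hn hL (Or.inr hU), Or.inr hU⟩
  · intro F m x i0 B hV
    have h1 := hyp_sharp (L := L) hV.cover hV.coordinates hV.positive hV.degree
    by_cases hc : CanGe L n n
    · exact ⟨Or.inl hc, special_of hn hL (Or.inl hc), Or.inl hc⟩
    · have h2 := h1 (Or.inr ⟨rfl, hc⟩)
      exact ⟨Or.inr h2.1, special_of hn hL (Or.inr h2.2), Or.inr h2.2⟩

end Pool.Agent.Results.MP_9410e4_ag.SpecialSpreadImagesH74
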