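import Pool.Agent.V7H50.S.Main

/-!
# Special and potentially dense for quotients with fixed points

Let `Z'` be a variety with a dominant rational map to `Y × C 1 × ... × C n`, where the `C i` are
curves and `Y` is of general type (a point is allowed), let `G` be a finite group of birational
automorphisms of `Z'` which permutes the curves and preserves the map, and let `X` be birational to
`Z' / G`. It is assumed that `Z'` is dominated by a variety `Z` with finitely many fibrations in
curves of genus at most one, such that all rational functions on `Z` which are invariant under these
fibrations (algebraic over the function fields of all the bases) come from `Y × C 1 × ... × C n`.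
So, if the `C i` have genus at least two, this product is, up to a finite map, the base of the core
map of `Z'`.

The question for `X` is what becomes of this base when we divide by `G`: as `G` has fixed points,
the pull back of the forms does not help, and `X` can be special although `Z'` is not (for instance
Kummer surfaces and rational quotients of products of two curves). `NumCondSp` is a numerical
criterion of Reid-Tai type with volumes: the elements of `G` with fixed points on `Z'` have age at
least one (corrected by effective divisors `ν i` on the curves), except at finitely many strata
whose total volume is smaller than the product of the numbers `N (2 g_i - 2) - deg (ν i) > 0`. It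
holds if `G` acts freely on `Z'` and the `C i` have genus at least two. For `Z' = C 1 × C 2` and
`G` cyclic of order `3` with `f` fixed points, all with the rotation numbers `(1, 1)`, it holds if
`f < 2 (2 g_1 - 2) (2 g_2 - 2)` (with `N = 1`, `ν i = 0` and all weights equal to `1`).

The theorem: under this condition `X` is special only if `Y × C 1 × ... × C n` is a point, that is,
for `X` as above special is the same as: `Z` is connected by curves of genus at most one. In this
case `X` is potentially dense. So the conjecture that special varieties are potentially dense holds
for these `X`.

The proof: if `d + n > 0`, then a Bogomolov sheaf of degree `d + n` on `X` is constructed: the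
saturation of the sheaf generated by `dy_1 ∧ ... ∧ dy_d ∧ dx_1 ∧ ... ∧ dx_n`, where the `x_i` are
functions on the curves permuted by `G`. Its powers have sections with poles on `Z'`, coming from
sections of `N K - ν i` on the curves which vanish to a high order at the exceptional strata (they
exist by the condition on the volumes), and the conditions on the ages show that the symmetric
functions of the conjugates of these sections are regular at all prime divisors of `X`. If
`d + n = 0`, then `Z` is special and potentially dense by the results on fibrations in curves of
genus at most one of the starting library, and so is its image `X`.
-/

set_option autoImplicit false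

namespace Pool.Agent.Results.MP_9410e4_ag.VolumeAgeSpecialH50

open MvPolynomial AlgebraicGeometry CategoryTheory
open Pool.Agent.W572 Pool.Agent.W572.G Pool.Agent.Y742.GG Pool.Agent.W602.GT
open FF IntermediateField Pool.Agent.W619.PQ Pool.Agent.W619.TW Pool.Agent.V7H50

/-- Let `F` be a polynomial over the number field `k₀`, irreducible over the algebraic closure `Ω`,
and `K` the function field over `Ω` of the hypersurface `Z` given by `F = 0`. Let `K` be, over the
intermediate fields `B 1, ..., B m`, the function field of a curve `w² = Q(t)`, `deg Q ≤ 4`, or of
a torsor under an elliptic curve. Let `L` be the function field of a variety `Z'` of dimension `w`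
dominated by `Z`, let `M ⊆ L` be the function field of a variety `Y` of general type of dimension
`d` (for instance a point), and let `C i ⊆ L`, `i < n`, be function fields of curves, such that
`M` and the `C i` are independent. Let `G` be a finite group of automorphisms of
`L` which permutes the `C i` through `σ` and maps `M` to elements which are algebraic over the
composite of `M` and the `C i` (all this is `ProductMap`), and suppose that the elements of `K`
which are algebraic over all `B i` are algebraic over this composite. Assume that `d + n = 0` or that the numerical condition `NumCondSp` holds. Then the
variety `X = Z' / G` is special if and only if `d + n = 0`, and if it is special, then every scheme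
over `k₀` to which the hypersurface `F = 0` admits a dominant rational map over `k₀` (for instance
`X`, if it is defined over `k₀` with `Z ⇢ X`) is potentially dense (`Dominates`). -/
theorem result (k₀ : Type) [Field k₀] [NumberField k₀] {N m d n w : ℕ}
    (F : MvPolynomial (Fin N) k₀)
    (hF : Irreducible (map (algebraMap k₀ (AlgebraicClosure k₀)) F))
    {K : Type} [Field K] [Algebra (AlgebraicClosure k₀) K] {x : Fin N → K}
    (hx : IsGenericPoint (map (algebraMap k₀ (AlgebraicClosure k₀)) F) x)
    (B : Fin m → IntermediateField (AlgebraicClosure k₀) K)
    (hB : ∀ i, IsDoubleCoverOfLine (B i) ∨ IsEllipticTorsor (B i))
    {L : Type} [Field L] [Algebra (AlgebraicClosure k₀) L] [Algebra L K]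
    [IsScalarTower (AlgebraicClosure k₀) L K] [Algebra.EssFiniteType (AlgebraicClosure k₀) L]
    (hw : Algebra.trdeg (AlgebraicClosure k₀) L = w)
    (M : IntermediateField (AlgebraicClosure k₀) L)
    (C : Fin n → IntermediateField (AlgebraicClosure k₀) L)
    (G : Subgroup (L ≃ₐ[AlgebraicClosure k₀] L)) [Finite G] (σ : G →* Equiv.Perm (Fin n))
    (h : ProductMap d M C G σ)
    (hinv : ∀ a : K, (∀ i, IsAlgebraic (B i) a) → IsAlgebraic ↥(M ⊔ ⨆ i, C i) a)
    (hnum : d + n = 0 ∨ NumCondSp G σ C) :
    (Special (AlgebraicClosure k₀) (fixedField G) w (fun _ => False) ↔ d + n = 0) ∧
      (Special (AlgebraicClosure k₀) (fixedField G) w (fun _ => False) →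
        ∀ (X : Scheme.{0}) (sX : X ⟶ Spec (.of k₀)), Dominates F sX → PotentiallyDense sX) :=
  Pool.Agent.V7H50.S.main k₀ F hF hx B hB hw M C G σ h hinv hnum

end Pool.Agent.Results.MP_9410e4_ag.VolumeAgeSpecialH50
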